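import Pool.Agent.P.MP_2cea5e_gt.Defs3
import Pool.Agent.P.MP_2cea5e_gt.Top
import Pool.Agent.P.MP_2cea5e_gt.I.St5

/-!
Chapter IV: from potentials to metrics.
-/

open scoped ContDiff ComplexOrder Matrix
open MeasureTheory Set

noncomputable section

namespace Pool.Agent.P.MP_2cea5e_gt.IV

open Pool.Agent.P.MP_2cea5e_gt.I

/-- One chart of a toric metric. -/
structure M1 (g : Fld) : Prop where
  smooth : ∀ j k, ContDiff ℝ ∞ fun z => g z j k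
  herm : ∀ z, (g z).IsHermitian
  closed : ∀ z j k l, dz l (fun w => g w j k) z = dz j (fun w => g w l k) z
  inv : ∀ θ z : C2, (∀ j, ‖θ j‖ = 1) → ∀ j k, θ j * g (θ * z) j k * star (θ k) = g z j k

/-- The complex Hessian of an invariant function on the open torus. -/
def StHT : Prop := ∀ f : C2 → ℝ, ContDiff ℝ ∞ f → Inv f → M1 (hess f) ∧
  ContDiff ℝ ∞ (lg fun q => f q.2) ∧ ∀ z : C2, (∀ k, z k ≠ 0) →
    z 0 * hess f z 0 0 * star (z 0) = h11 (lg fun q => f q.2) (0, lz z) ∧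
    z 0 * hess f z 0 1 * star (z 1) = h12 (lg fun q => f q.2) (0, lz z) ∧
    z 1 * hess f z 1 0 * star (z 0) = h12 (lg fun q => f q.2) (0, lz z) ∧
    z 1 * hess f z 1 1 * star (z 1) = h22 (lg fun q => f q.2) (0, lz z)

/-- The invariant `∂∂̄` lemma on `ℂ²`. -/
def StPot : Prop := ∀ g : Fld, M1 g → ∃ ψ : C2 → ℝ, ContDiff ℝ ∞ ψ ∧ Inv ψ ∧ hess ψ = g

/-- Compatibility of potentials and of metrics. -/
def StGlue : Prop := ∀ (m m' : Matrix (Fin 2) (Fin 2) ℤ) (f f' : C2 → ℝ), ContDiff ℝ ∞ f →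
  ContDiff ℝ ∞ f' → Inv f → Inv f' →
  ((∀ w : C2, (∀ k, w k ≠ 0) → pb m (hess f) w = pb m' (hess f') w) ↔
    ∃ (a : ℝ) (b : Fin 2 → ℝ), ∀ w : C2, (∀ k, w k ≠ 0) →
      f (mon m w) - f' (mon m' w) = a + ∑ k, b k * Real.log ‖w k‖)

/-- The complex Hessian of a time dependent function. -/
def StTH : Prop := ∀ (f : ℝ → C2 → ℝ) (R : ℝ → C2 → ℝ),
  ContDiffOn ℝ ∞ (fun q : ℝ × C2 => f q.1 q.2) (Ici 0 ×ˢ univ) →
  (∀ t ∈ Ici (0 : ℝ), ∀ z, HasDerivWithinAt (fun s => f s z) (R t z) (Ici 0) t) →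
  (∀ t ∈ Ici (0 : ℝ), ContDiff ℝ ∞ (f t) ∧ ContDiff ℝ ∞ (R t)) ∧ ∀ j k,
    ContDiffOn ℝ ∞ (fun q : ℝ × C2 => hess (f q.1) q.2 j k) (Ici 0 ×ˢ univ) ∧
    ∀ t ∈ Ici (0 : ℝ), ∀ z,
      HasDerivWithinAt (fun s => hess (f s) z j k) (hess (R t) z j k) (Ici 0) t

/-- The final statement in terms of metrics. -/
def StFinal : Prop := ∀ (ι : Type) [Finite ι] (m : ι → Matrix (Fin 2) (Fin 2) ℤ) (g₀ : ι → Fld)
  (κ : ℝ), IsFanD m → IsToricMetric m g₀ → 0 < κ → ∃ g : ℝ → ι → Fld, g 0 = g₀ ∧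
  (∀ t, 0 ≤ t → IsToricMetric m (g t)) ∧
  (∀ σ j k, ContDiffOn ℝ ∞ (fun q : ℝ × C2 => g q.1 σ q.2 j k) (Ici 0 ×ˢ univ)) ∧
  ∀ t, 0 ≤ t → ∀ σ z j k,
    HasDerivWithinAt (fun s => g s σ z j k) (κ * hess (scalG (g t σ)) z j k) (Ici 0) t

end Pool.Agent.P.MP_2cea5e_gt.IV
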