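import Pool.Agent.P.MP_2cea5e_gt.IV.St

/-!
Chapter IV: the metric formulation from the potential formulation.
-/

open scoped ContDiff ComplexOrder Matrix
open MeasureTheory Set

noncomputable section

namespace Pool.Agent.P.MP_2cea5e_gt.IV

theorem hess_smul (κ : ℝ) (R : C2 → ℝ) (z : C2) (j k : Fin 2) :
    hess (fun w => κ * R w - 0) z j k = κ * hess R z j k := by
  have h1 : ∀ (F : C2 → ℂ) (w v : C2),
      fderiv ℝ (fun x => (κ : ℂ) * F x) w v = κ * fderiv ℝ F w v := fun F w v => by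
    have := congrFun (fderiv_const_smul_field (𝕜 := ℝ) (f := F) κ) w
    have e : (fun x => (κ : ℂ) * F x) = κ • F := by
      funext x; simp
    rw [e, this]; simp
  have h2 : (dzb k fun w => ((κ * R w - 0 : ℝ) : ℂ)) =
      fun x => (κ : ℂ) * dzb k (fun w => (R w : ℂ)) x := by
    funext x
    have e : (fun w => ((κ * R w - 0 : ℝ) : ℂ)) = fun w => (κ : ℂ) * (R w : ℂ) := by
      funext w; simp
    simp only [dzb, e, h1]; ring
  simp only [hess, Matrix.of_apply, h2, dz, h1]; ring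

theorem final_of (h0 : StLong) (h1 : StPot) (h2 : StHT) (h3 : StGlue) (h4 : StTH) : StFinal := by
  intro ι _ m g₀ κ hm hg hκ
  choose ψ s1 s2 s3 using fun σ =>
    h1 (g₀ σ) ⟨hg.smooth σ, fun z => (hg.pos σ z).1, hg.closed σ, hg.inv σ⟩
  have hK : IsToricKaehler m ψ := ⟨s1, s2, fun σ z => by rw [s3]; exact hg.pos σ z, fun σ τ =>
    (h3 _ _ _ _ (s1 σ) (s1 τ) (s2 σ) (s2 τ)).mp (by rw [s3, s3]; exact hg.glue σ τ)⟩
  obtain ⟨φ, hφ⟩ := h0 ι m ψ κ 0 hm hK hκ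
  have H := fun σ => h4 (fun t => ψ σ + φ t σ) (fun t z => κ * scal (ψ σ + φ t σ) z - 0)
    ((((s1 σ).comp contDiff_snd).contDiffOn).add (hφ.smooth σ))
    fun t ht z => (hφ.flow t ht σ z).const_add (ψ σ z)
  have hi : ∀ t ∈ Ici (0 : ℝ), ∀ σ, Inv (ψ σ + φ t σ) := fun t ht σ θ z hθ => by
    simp only [Pi.add_apply, s2 σ θ z hθ, hφ.inv t ht σ θ z hθ]
  refine ⟨fun t σ => hess (ψ σ + φ t σ), ?_, fun t ht => ?_, fun σ j k => ((H σ).2 j k).1,
    fun t ht σ z j k => ?_⟩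
  · funext σ
    have : φ 0 σ = 0 := funext (hφ.init σ)
    simp only [this, add_zero, s3]
  · have M := fun σ => (h2 _ ((H σ).1 t ht).1 (hi t ht σ)).1
    refine ⟨fun σ => (M σ).smooth, hφ.pos t ht, fun σ => (M σ).closed, fun σ => (M σ).inv,
      fun σ τ => (h3 _ _ _ _ ((H σ).1 t ht).1 ((H τ).1 t ht).1 (hi t ht σ) (hi t ht τ)).mpr ?_⟩
    obtain ⟨a, b, hab⟩ := hK.glue σ τ
    refine ⟨a, b, fun w hw => ?_⟩
    simp only [Pi.add_apply, hφ.glue t ht σ τ w hw, ← hab w hw]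
    ring
  · have := ((H σ).2 j k).2 t ht z
    rwa [hess_smul] at this

end Pool.Agent.P.MP_2cea5e_gt.IV
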