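import Pool.Agent.P.MP_2cea5e_gt.IV.St

/-!
Compatibility of potentials and of metrics.
-/

open scoped ContDiff ComplexOrder Matrix
open MeasureTheory Set

noncomputable section

namespace Pool.Agent.P.MP_2cea5e_gt.IV

open Pool.Agent.P.MP_2cea5e_gt.I

namespace Glue

theorem mon_apply (m : Matrix (Fin 2) (Fin 2) ℤ) (w : C2) (j : Fin 2) :
    mon m w j = w 0 ^ m j 0 * w 1 ^ m j 1 := by
  simp [mon, Fin.prod_univ_two]

theorem mon_ne (m : Matrix (Fin 2) (Fin 2) ℤ) {w : C2} (hw : ∀ k, w k ≠ 0) (j : Fin 2) :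
    mon m w j ≠ 0 := by
  rw [mon_apply]
  exact mul_ne_zero (zpow_ne_zero _ (hw 0)) (zpow_ne_zero _ (hw 1))

theorem fd_mon (m : Matrix (Fin 2) (Fin 2) ℤ) {w : C2} (hw : ∀ k, w k ≠ 0) (j : Fin 2) (v : C2) :
    fderiv ℝ (fun x => mon m x j) w v =
      mon m w j * (m j 0 * v 0 / w 0 + m j 1 * v 1 / w 1) := by
  have hp : ∀ k : Fin 2, HasFDerivAt (fun x : C2 => x k)
      (ContinuousLinearMap.proj (R := ℂ) (φ := fun _ : Fin 2 => ℂ) k) w :=
    fun k => hasFDerivAt_apply k w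
  have h0 := (hasDerivAt_zpow (m j 0) (w 0) (Or.inl (hw 0))).comp_hasFDerivAt w (hp 0)
  have h1 := (hasDerivAt_zpow (m j 1) (w 1) (Or.inl (hw 1))).comp_hasFDerivAt w (hp 1)
  have h2 := (h0.mul h1).restrictScalars ℝ
  have h3 : (fun x => mon m x j) =
      ((fun x : ℂ => x ^ m j 0) ∘ fun x : C2 => x 0) * ((fun x : ℂ => x ^ m j 1) ∘ fun x : C2 => x 1) := by
    funext x; simp [mon_apply]
  rw [h3, h2.fderiv, mon_apply]
  have a0 := hw 0
  have a1 := hw 1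
  simp [zpow_sub_one₀ a0, zpow_sub_one₀ a1]
  field_simp
  ring

theorem jac_eq (m : Matrix (Fin 2) (Fin 2) ℤ) {w : C2} (hw : ∀ k, w k ≠ 0) (j a : Fin 2) :
    jac m w j a = m j a * mon m w j / w a := by
  simp only [jac, Matrix.of_apply, dz, fd_mon m hw]
  have a0 := hw 0
  have a1 := hw 1
  fin_cases a
  · simp
    field_simp
    ring_nf
    simp
    ring
  · simp
    field_simp
    ring_nf
    simp
    ring

theorem pb_eq (m : Matrix (Fin 2) (Fin 2) ℤ) (g : Fld) {w : C2} (hw : ∀ k, w k ≠ 0)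
    (a b : Fin 2) : w a * pb m g w a b * star (w b) =
      ∑ j, ∑ k, (m j a : ℂ) * m k b * (mon m w j * g (mon m w) j k * star (mon m w k)) := by
  have ha := hw a
  have hb : star (w b) ≠ 0 := star_ne_zero.2 (hw b)
  simp only [pb, Matrix.mul_apply, Matrix.transpose_apply, Matrix.map_apply, jac_eq m hw,
    Fin.sum_univ_two, star_div₀, star_mul', star_intCast]
  field_simp
  ring

theorem log_norm_mon (m : Matrix (Fin 2) (Fin 2) ℤ) {w : C2} (hw : ∀ k, w k ≠ 0) (j : Fin 2) :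
    Real.log (‖mon m w j‖ ^ 2) =
      m j 0 * Real.log (‖w 0‖ ^ 2) + m j 1 * Real.log (‖w 1‖ ^ 2) := by
  have a0 : ‖w 0‖ ≠ 0 := norm_ne_zero_iff.2 (hw 0)
  have a1 : ‖w 1‖ ≠ 0 := norm_ne_zero_iff.2 (hw 1)
  rw [mon_apply, norm_mul, norm_zpow, norm_zpow, Real.log_pow, Real.log_pow, Real.log_pow,
    Real.log_mul (zpow_ne_zero _ a0) (zpow_ne_zero _ a1), Real.log_zpow, Real.log_zpow]
  push_cast
  ring

theorem lz_mon (m : Matrix (Fin 2) (Fin 2) ℤ) {w : C2} (hw : ∀ k, w k ≠ 0) :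
    lz (mon m w) = mz m (lz w) := by
  simp only [lz, mz, log_norm_mon m hw]

theorem ez_ne (ξ : ℝ × ℝ) (k : Fin 2) : ez ξ k ≠ 0 := by
  fin_cases k <;> simp [ez]

theorem log_ez0 (ξ : ℝ × ℝ) : Real.log ‖ez ξ 0‖ = ξ.1 / 2 := by
  simp only [ez, Matrix.cons_val_zero, Complex.norm_real, Real.norm_eq_abs,
    abs_of_pos (Real.exp_pos _), Real.log_exp]

theorem log_ez1 (ξ : ℝ × ℝ) : Real.log ‖ez ξ 1‖ = ξ.2 / 2 := by
  simp only [ez, Matrix.cons_val_one, Matrix.cons_val_zero, Complex.norm_real, Real.norm_eq_abs,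
    abs_of_pos (Real.exp_pos _), Real.log_exp]

theorem lz_ez (ξ : ℝ × ℝ) : lz (ez ξ) = ξ := by
  simp only [lz, Real.log_pow, log_ez0, log_ez1]
  ext <;> simp <;> ring

theorem exp_half {r : ℝ} (hr : 0 < r) : Real.exp (Real.log (r ^ 2) / 2) = r := by
  rw [Real.log_pow]
  have : ((2 : ℕ) : ℝ) * Real.log r / 2 = Real.log r := by push_cast; ring
  rw [this, Real.exp_log hr]

theorem inv_ez {f : C2 → ℝ} (hI : Inv f) {z : C2} (hz : ∀ k, z k ≠ 0) : f (ez (lz z)) = f z := by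
  have hn : ∀ k, 0 < ‖z k‖ := fun k => norm_pos_iff.2 (hz k)
  have h1 := hI (fun k => z k / (‖z k‖ : ℂ)) (ez (lz z)) (fun k => by
    rw [norm_div, Complex.norm_real, Real.norm_eq_abs, abs_of_pos (hn k), div_self (hn k).ne'])
  rw [← h1]
  congr 1
  funext k
  have hc : ∀ k, ((‖z k‖ : ℝ) : ℂ) ≠ 0 := fun k => Complex.ofReal_ne_zero.2 (hn k).ne'
  fin_cases k
  · simp only [ez, lz, Pi.mul_apply, Fin.zero_eta, Matrix.cons_val_zero, exp_half (hn 0)]
    exact div_mul_cancel₀ _ (hc 0)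
  · simp only [ez, lz, Pi.mul_apply, Fin.mk_one, Matrix.cons_val_one, Matrix.cons_val_zero,
      exp_half (hn 1)]
    exact div_mul_cancel₀ _ (hc 1)

/-- The chart map in logarithmic coordinates as a linear map. -/
def Lm (m : Matrix (Fin 2) (Fin 2) ℤ) : X →L[ℝ] X :=
  LinearMap.toContinuousLinearMap
    { toFun := fun p => (p.1, mz m p.2)
      map_add' := fun p q => by
        ext <;> simp [mz] <;> ring
      map_smul' := fun c p => by
        ext <;> simp [mz] <;> ring }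

theorem Lm_apply (m : Matrix (Fin 2) (Fin 2) ℤ) (p : X) : Lm m p = (p.1, mz m p.2) := rfl

/-- The two spatial directions. -/
def ee : Fin 2 → X := ![e1, e2]

theorem Lm_ee (m : Matrix (Fin 2) (Fin 2) ℤ) (a : Fin 2) :
    Lm m (ee a) = (m 0 a : ℝ) • e1 + (m 1 a : ℝ) • e2 := by
  fin_cases a <;> simp [Lm_apply, ee, mz, e1, e2]

theorem D_comp {Φ : X → ℝ} (hΦ : Sm Φ) (L : X →L[ℝ] X) (v : X) :
    D v (Φ ∘ L) = D (L v) Φ ∘ L := by
  funext p
  simp only [D, Function.comp_apply]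
  rw [((hΦ.diff (L p)).hasFDerivAt.comp p L.hasFDerivAt).fderiv]
  rfl

theorem DD_dir2 {Φ : X → ℝ} (hΦ : Sm Φ) (a b c d : ℝ) (p : X) :
    D (a • e1 + b • e2) (D (c • e1 + d • e2) Φ) p =
      a * c * h11 Φ p + a * d * h12 Φ p + b * c * h12 Φ p + b * d * h22 Φ p := by
  have s1 := sm_D e1 hΦ
  have s2 := sm_D e2 hΦ
  rw [D_dir c d, D_dir a b, D_add _ (sm_mul (sm_K c) s1) (sm_mul (sm_K d) s2),
    D_add _ (sm_mul (sm_K c) s1) (sm_mul (sm_K d) s2), D_mul _ (sm_K c) s1, D_mul _ (sm_K c) s1,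
    D_mul _ (sm_K d) s2, D_mul _ (sm_K d) s2, D_comm e2 e1 hΦ]
  simp only [D_K, h11, h12, h22, Pi.add_apply, Pi.mul_apply, K_apply, Pi.zero_apply]
  ring

/-- The potential in the logarithmic coordinates of the torus. -/
def ps (m : Matrix (Fin 2) (Fin 2) ℤ) (f : C2 → ℝ) : X → ℝ := (lg fun q => f q.2) ∘ Lm m

theorem sm_ps (h : StHT) (m : Matrix (Fin 2) (Fin 2) ℤ) {f : C2 → ℝ} (hf : ContDiff ℝ ∞ f)
    (hI : Inv f) : Sm (ps m f) :=
  (h f hf hI).2.1.comp (Lm m).contDiff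

theorem ps_lz (m : Matrix (Fin 2) (Fin 2) ℤ) {f : C2 → ℝ} (hI : Inv f) {w : C2}
    (hw : ∀ k, w k ≠ 0) (t : ℝ) : ps m f (t, lz w) = f (mon m w) := by
  simp only [ps, lg, Function.comp_apply, Lm_apply]
  rw [← lz_mon m hw, inv_ez hI (mon_ne m hw)]

theorem pb_hess (h : StHT) (m : Matrix (Fin 2) (Fin 2) ℤ) {f : C2 → ℝ} (hf : ContDiff ℝ ∞ f)
    (hI : Inv f) {w : C2} (hw : ∀ k, w k ≠ 0) (a b : Fin 2) :
    w a * pb m (hess f) w a b * star (w b) = D (ee a) (D (ee b) (ps m f)) (0, lz w) := by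
  obtain ⟨-, hs, hh⟩ := h f hf hI
  obtain ⟨h00, h01, h10, h11'⟩ := hh (mon m w) (mon_ne m hw)
  rw [pb_eq m _ hw, ps, D_comp hs, D_comp (sm_D _ hs), Function.comp_apply, Lm_ee, Lm_ee,
    DD_dir2 hs, Lm_apply]
  simp only [Fin.sum_univ_two, h00, h01, h10, h11', lz_mon m hw]
  push_cast
  ring

theorem sp_dir (η : ℝ × ℝ) : ((0, η) : X) = η.1 • e1 + η.2 • e2 := by
  ext <;> simp [e1, e2]

theorem const_of {G : X → ℝ} (hG : Sm G) (h1 : ∀ ξ, D e1 G (0, ξ) = 0)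
    (h2 : ∀ ξ, D e2 G (0, ξ) = 0) (ξ : ℝ × ℝ) : G (0, ξ) = G (0, 0) := by
  refine is_const_of_fderiv_eq_zero (𝕜 := ℝ) (f := fun ξ : ℝ × ℝ => G (0, ξ))
    (fun x => (hasFDerivAt_space hG 0 x).differentiableAt) (fun x => ?_) ξ 0
  refine ContinuousLinearMap.ext fun η => ?_
  rw [fderiv_space hG, sp_dir, D_dir]
  simp [h1, h2]

theorem affine_of {G : X → ℝ} (hG : Sm G) (h : ∀ a b ξ, D (ee a) (D (ee b) G) (0, ξ) = 0) :
    ∃ a b c : ℝ, ∀ ξ : ℝ × ℝ, G (0, ξ) = a + b * ξ.1 + c * ξ.2 := by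
  have c1 := const_of (sm_D e1 hG) (h 0 0) (h 1 0)
  have c2 := const_of (sm_D e2 hG) (h 0 1) (h 1 1)
  set b := D e1 G (0, 0)
  set c := D e2 G (0, 0)
  have c3 := const_of (sm_sub hG (sm_Li b c))
    (fun ξ => by rw [D_sub _ hG (sm_Li b c), D_Li, Pi.sub_apply, c1]; simp [e1])
    (fun ξ => by rw [D_sub _ hG (sm_Li b c), D_Li, Pi.sub_apply, c2]; simp [e2])
  refine ⟨G (0, 0), b, c, fun ξ => ?_⟩
  have := c3 ξ
  simp only [Pi.sub_apply, Li_apply, Prod.fst_zero, Prod.snd_zero] at this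
  linarith

end Glue

open Glue in
theorem glue_ok (h : StHT) : StGlue := by
  intro m m' f f' hf hf' hI hI'
  have s := sm_ps h m hf hI
  have s' := sm_ps h m' hf' hI'
  have hD : ∀ u v : X, D u (D v (ps m f - ps m' f')) =
      D u (D v (ps m f)) - D u (D v (ps m' f')) := fun u v => by
    rw [D_sub _ s s', D_sub _ (sm_D v s) (sm_D v s')]
  constructor
  · intro H
    obtain ⟨a, b, c, habc⟩ := affine_of (sm_sub s s') (fun a b ξ => by
      have e1 := pb_hess h m hf hI (ez_ne ξ) a b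
      have e2 := pb_hess h m' hf' hI' (ez_ne ξ) a b
      rw [H _ (ez_ne ξ), e2, lz_ez] at e1
      rw [hD, Pi.sub_apply, sub_eq_zero]
      exact_mod_cast e1.symm)
    refine ⟨a, ![2 * b, 2 * c], fun w hw => ?_⟩
    have := habc (lz w)
    rw [Pi.sub_apply, ps_lz m hI hw, ps_lz m' hI' hw] at this
    rw [this]
    simp only [lz, Real.log_pow, Fin.sum_univ_two, Matrix.cons_val_zero, Matrix.cons_val_one]
    push_cast
    ring
  · rintro ⟨a, b, H⟩ w hw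
    have hG : ps m f - ps m' f' = K a + Li (b 0 / 2) (b 1 / 2) := by
      funext p
      obtain ⟨t, ξ⟩ := p
      have e1 := ps_lz m hI (ez_ne ξ) t
      have e2 := ps_lz m' hI' (ez_ne ξ) t
      rw [lz_ez] at e1 e2
      rw [Pi.sub_apply, e1, e2, H _ (ez_ne ξ)]
      simp only [Fin.sum_univ_two, log_ez0, log_ez1, Pi.add_apply, K_apply, Li_apply]
      ring
    ext a' b'
    have e1 := pb_hess h m hf hI hw a' b'
    have e2 := pb_hess h m' hf' hI' hw a' b'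
    have e3 := congrFun (hD (ee a') (ee b')) (0, lz w)
    rw [hG, D_add _ (sm_K a) (sm_Li _ _), D_K, D_Li, zero_add, D_K, Pi.sub_apply,
      Pi.zero_apply, eq_comm, sub_eq_zero] at e3
    rw [e3, ← e2] at e1
    exact mul_left_cancel₀ (hw a') (mul_right_cancel₀ (star_ne_zero.2 (hw b')) e1)

end Pool.Agent.P.MP_2cea5e_gt.IV
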