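import Pool.Agent.P.MP_2cea5e_gt.IV.St
import Pool.Agent.P.MP_2cea5e_gt.Vol

/-!
Chapter IV: the invariant potential of a closed invariant form on a chart.
-/

open scoped ContDiff ComplexConjugate Topology
open MeasureTheory Set Filter

noncomputable section

set_option linter.dupNamespace false

namespace Pool.Agent.P.MP_2cea5e_gt.IV

namespace Pot

theorem hfd_int {F : Type} [NormedAddCommGroup F] [NormedSpace ℝ F] {G : C2 × ℝ → F}
    (hG : ContDiff ℝ ∞ G) (p₀ : C2) :
    HasFDerivAt (fun p : C2 => ∫ s in (0 : ℝ)..1, G (p, s))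
      (∫ s in (0 : ℝ)..1, (fderiv ℝ G (p₀, s)).comp (ContinuousLinearMap.inl ℝ C2 ℝ)) p₀ := by
  have sG' : Continuous fun q : C2 × ℝ => (fderiv ℝ G q).comp (ContinuousLinearMap.inl ℝ C2 ℝ) :=
    (hG.continuous_fderiv (by simp)).clm_comp continuous_const
  obtain ⟨C, hC⟩ := ((isCompact_closedBall p₀ 1).prod
    (isCompact_uIcc (a := (0 : ℝ)) (b := 1))).exists_bound_of_continuousOn sG'.continuousOn
  have c1 : ∀ p : C2, Continuous fun s : ℝ => G (p, s) := fun p =>
    hG.continuous.comp (continuous_const.prodMk continuous_id)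
  refine intervalIntegral.hasFDerivAt_integral_of_dominated_of_fderiv_le (μ := volume)
    (F := fun p s => G (p, s))
    (F' := fun p s => (fderiv ℝ G (p, s)).comp (ContinuousLinearMap.inl ℝ C2 ℝ))
    (bound := fun _ => C) (Metric.closedBall_mem_nhds p₀ one_pos)
    (Eventually.of_forall fun p => (c1 p).aestronglyMeasurable)
    ((c1 p₀).intervalIntegrable _ _)
    (sG'.comp (continuous_const.prodMk continuous_id)).aestronglyMeasurable
    (Eventually.of_forall fun s hs p hp => hC (p, s) ⟨hp, uIoc_subset_uIcc hs⟩)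
    intervalIntegrable_const (Eventually.of_forall fun s _ p _ => ?_)
  exact ((hG.differentiable (by simp)) (p, s)).hasFDerivAt.comp p (hasFDerivAt_prodMk_left p s)

theorem sm_int_nat (n : ℕ) : ∀ (F : Type) [NormedAddCommGroup F] [NormedSpace ℝ F]
    (G : C2 × ℝ → F), ContDiff ℝ ∞ G →
    ContDiff ℝ n fun p : C2 => ∫ s in (0 : ℝ)..1, G (p, s) := by
  induction n with
  | zero =>
    intro F _ _ G hG
    rw [Nat.cast_zero, contDiff_zero]
    exact intervalIntegral.continuous_parametric_intervalIntegral_of_continuous'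
      (f := fun p s => G (p, s)) hG.continuous 0 1
  | succ n ih =>
    intro F _ _ G hG
    rw [Nat.cast_succ, contDiff_succ_iff_hasFDerivAt]
    exact ⟨fun p => ∫ s in (0 : ℝ)..1, (fderiv ℝ G (p, s)).comp (ContinuousLinearMap.inl ℝ C2 ℝ),
      ih _ (fun q => (fderiv ℝ G q).comp (ContinuousLinearMap.inl ℝ C2 ℝ))
        ((hG.fderiv_right (m := ∞) (by simp)).clm_comp contDiff_const), hfd_int hG⟩

/-- The radial integral that inverts `1 + E / 2`. -/
def K (f : C2 → ℂ) (z : C2) : ℂ := ∫ s in (0 : ℝ)..1, (2 * s) • f (s • z)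

variable {f : C2 → ℂ}

theorem sm_ker (hf : ContDiff ℝ ∞ f) :
    ContDiff ℝ ∞ fun q : C2 × ℝ => (2 * q.2) • f (q.2 • q.1) :=
  (contDiff_const.mul contDiff_snd).smul (hf.comp (contDiff_snd.smul contDiff_fst))

theorem sm_K (hf : ContDiff ℝ ∞ f) : ContDiff ℝ ∞ (K f) :=
  contDiff_infty.2 fun n => sm_int_nat n ℂ _ (sm_ker hf)

theorem cont_fd (hf : ContDiff ℝ ∞ f) (z v : C2) :
    Continuous fun s : ℝ => (2 * s * s) • fderiv ℝ f (s • z) v :=
  ((continuous_const.mul continuous_id).mul continuous_id).smul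
    (((hf.continuous_fderiv (by simp)).comp (continuous_id.smul continuous_const)).clm_apply
      continuous_const)

theorem fd_K (hf : ContDiff ℝ ∞ f) (z v : C2) :
    fderiv ℝ (K f) z v = ∫ s in (0 : ℝ)..1, (2 * s * s) • fderiv ℝ f (s • z) v := by
  have h := hfd_int (sm_ker hf) z
  have hc : Continuous fun s : ℝ => (fderiv ℝ (fun q : C2 × ℝ => (2 * q.2) • f (q.2 • q.1))
      (z, s)).comp (ContinuousLinearMap.inl ℝ C2 ℝ) :=
    (((sm_ker hf).continuous_fderiv (by simp)).comp
      (continuous_const.prodMk continuous_id)).clm_comp continuous_const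
  rw [show K f = fun p : C2 => ∫ s in (0 : ℝ)..1, (2 * s) • f (s • p) from rfl, h.fderiv,
    ContinuousLinearMap.intervalIntegral_apply (hc.intervalIntegrable _ _)]
  congr 1
  funext s
  have h1 : HasFDerivAt (fun p : C2 => (2 * s) • f (s • p))
      ((fderiv ℝ (fun q : C2 × ℝ => (2 * q.2) • f (q.2 • q.1)) (z, s)).comp
        (ContinuousLinearMap.inl ℝ C2 ℝ)) z :=
    HasFDerivAt.comp (g := fun q : C2 × ℝ => (2 * q.2) • f (q.2 • q.1)) z
      (((sm_ker hf).differentiable (by simp)) (z, s)).hasFDerivAt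
      (hasFDerivAt_prodMk_left (𝕜 := ℝ) z s)
  have h2 : HasFDerivAt (fun p : C2 => (2 * s) • f (s • p))
      ((2 * s) • (fderiv ℝ f (s • z)).comp (s • ContinuousLinearMap.id ℝ C2)) z :=
    (((hf.differentiable (by simp)) (s • z)).hasFDerivAt.comp z
      ((hasFDerivAt_id z).const_smul s)).const_smul (2 * s)
  rw [h1.unique h2]
  simp [mul_smul]

theorem dz_K (hf : ContDiff ℝ ∞ f) (j : Fin 2) (z : C2) :
    dz j (K f) z = ∫ s in (0 : ℝ)..1, (2 * s * s) • dz j f (s • z) := by
  unfold dz
  rw [fd_K hf, fd_K hf, ← intervalIntegral.integral_const_mul,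
    ← intervalIntegral.integral_sub ((cont_fd hf z _).intervalIntegrable _ _)
      ((continuous_const.fun_mul (cont_fd hf z _)).intervalIntegrable _ _),
    ← intervalIntegral.integral_div]
  congr 1
  funext s
  simp only [Complex.real_smul]
  ring

theorem K_inv (hf : ContDiff ℝ ∞ f) (z : C2) : K f z + fderiv ℝ (K f) z z / 2 = f z := by
  have c0 : Continuous fun s : ℝ => (2 * s) • f (s • z) :=
    (continuous_const.mul continuous_id).smul
      (hf.continuous.comp (continuous_id.smul continuous_const))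
  rw [fd_K hf, K, ← intervalIntegral.integral_div,
    ← intervalIntegral.integral_add (c0.intervalIntegrable _ _)
      (((cont_fd hf z z).div_const _).intervalIntegrable _ _)]
  have hd : ∀ s ∈ uIcc (0 : ℝ) 1, HasDerivAt (fun s : ℝ => (s * s) • f (s • z))
      ((2 * s) • f (s • z) + ((2 * s * s) • fderiv ℝ f (s • z) z) / 2) s := by
    intro s _
    have h1 : HasDerivAt (fun s : ℝ => f (s • z)) (fderiv ℝ f (s • z) z) s := by
      have h0 : HasDerivAt (fun s : ℝ => s • z) z s := by
        simpa using (hasDerivAt_id s).smul_const z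
      exact ((hf.differentiable (by simp)) (s • z)).hasFDerivAt.comp_hasDerivAt s h0
    have h2 : HasDerivAt (fun s : ℝ => (s * s) • f (s • z))
        ((s * s) • fderiv ℝ f (s • z) z + (1 * s + s * 1) • f (s • z)) s :=
      ((hasDerivAt_id s).mul (hasDerivAt_id s)).smul h1
    refine h2.congr_deriv ?_
    simp only [Complex.real_smul]
    push_cast
    ring
  rw [intervalIntegral.integral_eq_sub_of_hasDerivAt hd
    ((c0.add ((cont_fd hf z z).div_const _)).intervalIntegrable _ _)]
  simp

theorem K_conj (f : C2 → ℂ) (z : C2) : conj (K f z) = K (fun w => conj (f w)) z := by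
  unfold K
  rw [← intervalIntegral.intervalIntegral_conj]
  congr 1
  funext s
  simp [map_ofNat]

/-- The radial integral of a field. -/
def KF (g : Fld) : Fld := fun z => Matrix.of fun j k => K (fun w => g w j k) z

theorem m1_KF {g : Fld} (h : M1 g) : M1 (KF g) := by
  refine ⟨fun j k => sm_K (h.smooth j k), fun z => ?_, fun z j k l => ?_, fun θ z hθ j k => ?_⟩
  · ext j k
    show conj (K (fun w => g w k j) z) = K (fun w => g w j k) z
    rw [K_conj]
    congr 1
    funext w
    exact (h.herm w).apply j k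
  · show dz l (K fun w => g w j k) z = dz j (K fun w => g w l k) z
    rw [dz_K (h.smooth j k), dz_K (h.smooth l k)]
    congr 1
    funext s
    rw [h.closed]
  · show θ j * K (fun w => g w j k) (θ * z) * star (θ k) = K (fun w => g w j k) z
    unfold K
    rw [← intervalIntegral.integral_const_mul, ← intervalIntegral.integral_mul_const]
    congr 1
    funext s
    show θ j * (2 * s) • g (s • (θ * z)) j k * star (θ k) = (2 * s) • g (s • z) j k
    rw [← h.inv θ (s • z) hθ j k, mul_smul_comm s θ z]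
    simp only [Complex.real_smul]
    ring

theorem lin_dec (A : C2 →L[ℝ] ℂ) (z : C2) :
    A z = ∑ j, ((z j).re * A (Pi.single j 1) + (z j).im * A (Pi.single j Complex.I)) := by
  conv_lhs => rw [← Finset.univ_sum_single z, map_sum]
  exact Finset.sum_congr rfl fun j _ => Vol.lin_single A j (z j)

theorem rot_zero (hf : ContDiff ℝ ∞ f) (hI : ∀ (a : ℂ) (z : C2), ‖a‖ = 1 → f (a • z) = f z)
    (z : C2) : fderiv ℝ f z (Complex.I • z) = 0 := by
  have h0 : HasDerivAt (fun t : ℝ => Complex.exp (t * Complex.I) • z) (Complex.I • z) 0 := by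
    have h1 : HasDerivAt (fun t : ℝ => Complex.exp (t * Complex.I)) Complex.I 0 := by
      have := ((Complex.ofRealCLM.hasDerivAt (x := (0 : ℝ))).mul_const Complex.I).cexp
      simpa using this
    exact h1.smul_const z
  have h2 : HasFDerivAt f (fderiv ℝ f z) (Complex.exp (((0 : ℝ) : ℂ) * Complex.I) • z) := by
    simpa using ((hf.differentiable (by simp)) z).hasFDerivAt
  have h3 := h2.comp_hasDerivAt (0 : ℝ) h0
  have h4 : (f ∘ fun t : ℝ => Complex.exp (t * Complex.I) • z) = fun _ => f z := by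
    funext t
    exact hI _ z (Complex.norm_exp_ofReal_mul_I t)
  rw [h4] at h3
  exact h3.unique (hasDerivAt_const _ _)

theorem euler (hf : ContDiff ℝ ∞ f) (hI : ∀ (a : ℂ) (z : C2), ‖a‖ = 1 → f (a • z) = f z)
    (z : C2) : ∑ j, z j * dz j f z = fderiv ℝ f z z / 2 ∧
      ∑ j, conj (z j) * dzb j f z = fderiv ℝ f z z / 2 := by
  have h0 := rot_zero hf hI z
  rw [lin_dec] at h0
  rw [lin_dec (fderiv ℝ f z) z]
  simp only [Fin.sum_univ_two, dz, dzb, Pi.smul_apply, smul_eq_mul, Complex.mul_re, Complex.mul_im,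
    Complex.I_re, Complex.I_im, zero_mul, one_mul, zero_sub, zero_add, Complex.ofReal_neg] at h0 ⊢
  have e0 := Complex.re_add_im (z 0)
  have e1 := Complex.re_add_im (z 1)
  have c0 : conj (z 0) = (z 0).re - (z 0).im * Complex.I := by
    apply Complex.ext <;> simp
  have c1 : conj (z 1) = (z 1).re - (z 1).im * Complex.I := by
    apply Complex.ext <;> simp
  rw [c0, c1]
  generalize ((z 0).re : ℂ) = x0 at *
  generalize ((z 0).im : ℂ) = y0 at *
  generalize ((z 1).re : ℂ) = x1 at *
  generalize ((z 1).im : ℂ) = y1 at *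
  rw [← e0, ← e1]
  constructor
  · linear_combination (-Complex.I / 2) * h0 + (-(y0 * fderiv ℝ f z (Pi.single 0 Complex.I) +
      y1 * fderiv ℝ f z (Pi.single 1 Complex.I)) / 2) * Complex.I_mul_I
  · linear_combination (Complex.I / 2) * h0 + (-(y0 * fderiv ℝ f z (Pi.single 0 Complex.I) +
      y1 * fderiv ℝ f z (Pi.single 1 Complex.I)) / 2) * Complex.I_mul_I

theorem fd_conj (hf : ContDiff ℝ ∞ f) (z v : C2) :
    fderiv ℝ (fun w => conj (f w)) z v = conj (fderiv ℝ f z v) := by
  have h := (Complex.conjCLE.toContinuousLinearMap.hasFDerivAt (x := f z)).comp z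
    ((hf.differentiable (by simp)) z).hasFDerivAt
  exact congrArg (fun A : C2 →L[ℝ] ℂ => A v) h.fderiv

theorem dzb_conj (hf : ContDiff ℝ ∞ f) (j : Fin 2) (z : C2) :
    dzb j (fun w => conj (f w)) z = conj (dz j f z) := by
  unfold dz dzb
  rw [fd_conj hf, fd_conj hf]
  simp [map_ofNat]

theorem closed_b {g : Fld} (h : M1 g) (z : C2) (j k b : Fin 2) :
    dzb b (fun w => g w j k) z = dzb k (fun w => g w j b) z := by
  have e : ∀ k, (fun w => g w j k) = fun w => conj (g w k j) := fun k =>
    funext fun w => ((h.herm w).apply j k).symm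
  rw [e k, e b, dzb_conj (h.smooth k j), dzb_conj (h.smooth b j), h.closed]

theorem inv_sc {g : Fld} (h : M1 g) (j k : Fin 2) (a : ℂ) (z : C2) (ha : ‖a‖ = 1) :
    g (a • z) j k = g z j k := by
  have h1 := h.inv (fun _ => a) z (fun _ => ha) j k
  have h2 : a * conj a = 1 := by
    rw [Complex.mul_conj, Complex.normSq_eq_norm_sq, ha]
    simp
  have h3 : (fun _ => a : C2) * z = a • z := rfl
  rw [h3] at h1
  rw [← h1]
  show _ = a * g (a • z) j k * conj a
  linear_combination (-g (a • z) j k) * h2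

theorem hfd_co (j : Fin 2) (z : C2) :
    HasFDerivAt (fun w : C2 => w j) (ContinuousLinearMap.proj (R := ℝ) j) z :=
  (ContinuousLinearMap.proj (R := ℝ) (φ := fun _ : Fin 2 => ℂ) j).hasFDerivAt

theorem hfd_cc (j : Fin 2) (z : C2) : HasFDerivAt (fun w : C2 => conj (w j))
    (Complex.conjCLE.toContinuousLinearMap.comp (ContinuousLinearMap.proj (R := ℝ) j)) z :=
  (Complex.conjCLE.toContinuousLinearMap.comp
    (ContinuousLinearMap.proj (R := ℝ) (φ := fun _ : Fin 2 => ℂ) j)).hasFDerivAt

/-- The quadratic form of a field. -/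
def QF (g : Fld) (z : C2) : ℂ := ∑ j, ∑ k, z j * g z j k * conj (z k)

theorem sm_QF {g : Fld} (h : M1 g) : ContDiff ℝ ∞ (QF g) := by
  refine ContDiff.sum fun j _ => ContDiff.sum fun k _ => ?_
  exact ((contDiff_apply ℝ ℂ j).mul (h.smooth j k)).mul
    (Complex.conjCLE.contDiff.comp (contDiff_apply ℝ ℂ k))

theorem QF_real {g : Fld} (h : M1 g) (z : C2) : ((QF g z).re : ℂ) = QF g z := by
  rw [← Complex.conj_eq_iff_re]
  have e : ∀ j k, conj (g z j k) = g z k j := fun j k => (h.herm z).apply k j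
  simp only [QF, Fin.sum_univ_two, map_add, map_mul, Complex.conj_conj, e]
  ring

theorem fd_QF {g : Fld} (h : M1 g) (z v : C2) : fderiv ℝ (QF g) z v =
    ∑ j, ∑ k, (v j * g z j k * conj (z k) + z j * fderiv ℝ (fun w => g w j k) z v * conj (z k)
      + z j * g z j k * conj (v k)) := by
  have h1 := HasFDerivAt.fun_sum (u := Finset.univ) fun j _ =>
    HasFDerivAt.fun_sum (u := Finset.univ) fun k _ =>
      ((hfd_co j z).fun_mul
        (((h.smooth j k).differentiable (by simp)) z).hasFDerivAt).fun_mul (hfd_cc k z)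
  rw [show QF g = fun z : C2 => ∑ j, ∑ k, z j * g z j k * conj (z k) from rfl, h1.fderiv]
  simp only [ContinuousLinearMap.sum_apply]
  refine Finset.sum_congr rfl fun j _ => Finset.sum_congr rfl fun k _ => ?_
  simp
  ring

theorem dzb_QF {g : Fld} (h : M1 g) (b : Fin 2) (z : C2) : dzb b (QF g) z =
    ∑ j, z j * (g z j b + fderiv ℝ (fun w => g w j b) z z / 2) := by
  have e1 : dzb b (QF g) z =
      ∑ j, z j * (g z j b + ∑ k, conj (z k) * dzb b (fun w => g w j k) z) := by
    unfold dzb
    rw [fd_QF h, fd_QF h]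
    fin_cases b
    · simp [Fin.sum_univ_two]
      linear_combination ((g z 0 0 * conj (z 0) + g z 0 1 * conj (z 1) - z 0 * g z 0 0 -
        z 1 * g z 1 0) / 2) * Complex.I_mul_I
    · simp [Fin.sum_univ_two]
      linear_combination ((g z 1 0 * conj (z 0) + g z 1 1 * conj (z 1) - z 0 * g z 0 1 -
        z 1 * g z 1 1) / 2) * Complex.I_mul_I
  rw [e1]
  refine Finset.sum_congr rfl fun j _ => ?_
  rw [← (euler (h.smooth j b) (inv_sc h j b) z).2]
  simp only [closed_b h z j _ b]

theorem dz_lin {g : Fld} (h : M1 g) (a b : Fin 2) (z : C2) :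
    dz a (fun w => ∑ j, w j * g w j b) z = g z a b + fderiv ℝ (fun w => g w a b) z z / 2 := by
  have h1 := HasFDerivAt.fun_sum (u := Finset.univ) fun j _ =>
    (hfd_co j z).fun_mul (((h.smooth j b).differentiable (by simp)) z).hasFDerivAt
  have e1 : dz a (fun w => ∑ j, w j * g w j b) z =
      g z a b + ∑ j, z j * dz a (fun w => g w j b) z := by
    unfold dz
    rw [h1.fderiv]
    fin_cases a
    · simp [Fin.sum_univ_two]
      linear_combination (-g z 0 b / 2) * Complex.I_mul_I
    · simp [Fin.sum_univ_two]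
      linear_combination (-g z 1 b / 2) * Complex.I_mul_I
  rw [e1, ← (euler (h.smooth a b) (inv_sc h a b) z).1]
  simp only [h.closed z _ b a]

end Pot

open Pot in
theorem pot_ok : StPot := by
  intro g h
  have h1 := m1_KF h
  have h2 := m1_KF h1
  refine ⟨fun z => (QF (KF (KF g)) z).re, Complex.reCLM.contDiff.comp (sm_QF h2),
    fun θ z hθ => ?_, ?_⟩
  · show (QF (KF (KF g)) (θ * z)).re = (QF (KF (KF g)) z).re
    congr 1
    refine Finset.sum_congr rfl fun j _ => Finset.sum_congr rfl fun k _ => ?_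
    rw [← h2.inv θ z hθ j k]
    simp only [Pi.mul_apply, map_mul, Complex.star_def]
    ring
  · funext z
    ext a b
    have e0 : (fun w => (((QF (KF (KF g)) w).re : ℝ) : ℂ)) = QF (KF (KF g)) :=
      funext (QF_real h2)
    have e1 : dzb b (QF (KF (KF g))) = fun w => ∑ j, w j * KF g w j b := by
      funext w
      rw [dzb_QF h2]
      refine Finset.sum_congr rfl fun j _ => ?_
      congr 1
      exact K_inv (h1.smooth j b) w
    show dz a (dzb b fun w => (((QF (KF (KF g)) w).re : ℝ) : ℂ)) z = g z a b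
    rw [e0, e1, dz_lin h1]
    exact K_inv (h.smooth a b) z

end Pool.Agent.P.MP_2cea5e_gt.IV
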