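import Pool.Agent.P.MP_2cea5e_gt.IV.St
import Pool.Agent.P.MP_2cea5e_gt.Hess

/-!
Chapter IV: the complex Hessian of a time dependent function.
-/

open scoped ContDiff ComplexOrder Matrix Topology
open MeasureTheory Set

noncomputable section

namespace Pool.Agent.P.MP_2cea5e_gt.IV

namespace TH

open Hess

/-- The closed half space. -/
def S : Set (ℝ × C2) := Ici 0 ×ˢ univ

/-- Directional derivative within the half space. -/
def T (v : ℝ × C2) (G : ℝ × C2 → ℝ) : ℝ × C2 → ℝ := fun q => fderivWithin ℝ G S q v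

theorem ud : UniqueDiffOn ℝ S := (uniqueDiffOn_Ici 0).prod uniqueDiffOn_univ

theorem mem_cl {q : ℝ × C2} (hq : q ∈ S) : q ∈ closure (interior S) := by
  rw [S, interior_prod_eq, closure_prod_eq, interior_Ici, interior_univ, closure_Ioi, closure_univ]
  exact hq

variable {G : ℝ × C2 → ℝ} {t : ℝ}

theorem sm_T (v : ℝ × C2) (h : ContDiffOn ℝ ∞ G S) : ContDiffOn ℝ ∞ (T v G) S :=
  (h.fderivWithin ud (m := ∞) (by simp)).clm_apply contDiffOn_const

theorem hfw (h : ContDiffOn ℝ ∞ G S) {q : ℝ × C2} (hq : q ∈ S) :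
    HasFDerivWithinAt G (fderivWithin ℝ G S q) S q :=
  (h.differentiableOn (by simp) q hq).hasFDerivWithinAt

theorem T_congr (v : ℝ × C2) {G' : ℝ × C2 → ℝ} (h : EqOn G G' S) : EqOn (T v G) (T v G') S :=
  fun q hq => by simp only [T, fderivWithin_congr' h hq]

theorem T_comm (v w : ℝ × C2) (h : ContDiffOn ℝ ∞ G S) : EqOn (T v (T w G)) (T w (T v G)) S := by
  intro q hq
  have h1 : DifferentiableWithinAt ℝ (fderivWithin ℝ G S) S q :=
    (h.fderivWithin ud (m := ∞) (by simp)).differentiableOn (by simp) q hq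
  have key : ∀ a b, T a (T b G) q = fderivWithin ℝ (fderivWithin ℝ G S) S q a b := by
    intro a b
    have := (h1.hasFDerivWithinAt.clm_apply (hasFDerivWithinAt_const b q S)).fderivWithin (ud q hq)
    show fderivWithin ℝ (fun y => fderivWithin ℝ G S y b) S q a = _
    rw [this]
    simp
  have hs : IsSymmSndFDerivWithinAt ℝ G S q :=
    (h q hq).isSymmSndFDerivWithinAt (by
      simp only [minSmoothness_of_isRCLikeNormedField]
      exact WithTop.coe_le_coe.2 (le_top : ((2 : ℕ) : ℕ∞) ≤ ⊤)) ud (mem_cl hq) hq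
  rw [key, key, hs.eq]

theorem sm_slice (h : ContDiffOn ℝ ∞ G S) (ht : 0 ≤ t) : ContDiff ℝ ∞ fun z => G (t, z) :=
  contDiffOn_univ.1 (h.comp (contDiff_const.prodMk contDiff_id).contDiffOn
    fun _ _ => ⟨ht, mem_univ _⟩)

theorem d_slice (h : ContDiffOn ℝ ∞ G S) (ht : 0 ≤ t) (v : C2) :
    d v (fun z => G (t, z)) = fun z => T (0, v) G (t, z) := by
  funext z
  have h1 := (hfw h (q := (t, z)) ⟨ht, mem_univ _⟩).comp z
    (hasFDerivAt_prodMk_right (𝕜 := ℝ) t z).hasFDerivWithinAt (s := univ)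
    fun _ _ => ⟨ht, mem_univ _⟩
  have h2 := (hasFDerivWithinAt_univ.1 h1).fderiv
  show fderiv ℝ (G ∘ fun z => (t, z)) z v = _
  rw [h2]
  simp [T]

theorem time (h : ContDiffOn ℝ ∞ G S) (ht : 0 ≤ t) (z : C2) :
    HasDerivWithinAt (fun s => G (s, z)) (T (1, 0) G (t, z)) (Ici 0) t :=
  (hfw h (q := (t, z)) ⟨ht, mem_univ _⟩).comp_hasDerivWithinAt t
    ((hasDerivAt_id t).prodMk (hasDerivAt_const t z)).hasDerivWithinAt
    fun _ hs => mk_mem_prod hs (mem_univ _)

/-- The complex Hessian in terms of derivatives within the half space. -/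
def Hs (G : ℝ × C2 → ℝ) (j k : Fin 2) (q : ℝ × C2) : ℂ :=
  ((T (0, EE j) (T (0, EE k) G) q : ℂ) + (T (0, JJ j) (T (0, JJ k) G) q : ℂ) +
    Complex.I * ((T (0, EE j) (T (0, JJ k) G) q : ℂ) - (T (0, JJ j) (T (0, EE k) G) q : ℂ))) / 4

theorem hess_slice (h : ContDiffOn ℝ ∞ G S) (ht : 0 ≤ t) (z : C2) (j k : Fin 2) :
    hess (fun z => G (t, z)) z j k = Hs G j k (t, z) := by
  rw [hess_eq (sm_slice h ht)]
  simp only [d_slice h ht, d_slice (sm_T _ h) ht, Hs]

theorem sm_Hs (h : ContDiffOn ℝ ∞ G S) (j k : Fin 2) : ContDiffOn ℝ ∞ (Hs G j k) S := by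
  have key : ∀ v w, ContDiffOn ℝ ∞ (fun q => (T v (T w G) q : ℂ)) S := fun v w =>
    Complex.ofRealCLM.contDiff.comp_contDiffOn (sm_T v (sm_T w h))
  exact (((key _ _).add (key _ _)).add (contDiffOn_const.mul ((key _ _).sub (key _ _)))).div_const _

theorem time_Hs (h : ContDiffOn ℝ ∞ G S) (ht : 0 ≤ t) (z : C2) (j k : Fin 2) :
    HasDerivWithinAt (fun s => Hs G j k (s, z)) (Hs (T (1, 0) G) j k (t, z)) (Ici 0) t := by
  have key : ∀ v w, HasDerivWithinAt (fun s => (T v (T w G) (s, z) : ℂ))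
      (T v (T w (T (1, 0) G)) (t, z) : ℂ) (Ici 0) t := by
    intro v w
    have h1 := time (sm_T v (sm_T w h)) ht z
    have hq : (t, z) ∈ S := ⟨ht, mem_univ _⟩
    rw [T_comm _ _ (sm_T w h) hq, T_congr v (T_comm _ _ h) hq] at h1
    exact Complex.ofRealCLM.hasFDerivAt.comp_hasDerivWithinAt t h1
  exact (((key _ _).add (key _ _)).add (((key _ _).sub (key _ _)).const_mul _)).div_const _

end TH

open TH in
theorem th_ok : StTH := by
  intro f R hf hR
  have hf' : ContDiffOn ℝ ∞ (fun q : ℝ × C2 => f q.1 q.2) S := hf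
  have e : ∀ t : ℝ, 0 ≤ t → R t = fun z => T (1, 0) (fun q : ℝ × C2 => f q.1 q.2) (t, z) :=
    fun t ht => funext fun z =>
      (uniqueDiffOn_Ici 0 t ht).eq_deriv _ (hR t ht z) (time hf' ht z)
  refine ⟨fun t ht => ⟨sm_slice hf' ht, ?_⟩, fun j k => ⟨?_, fun t ht z => ?_⟩⟩
  · rw [e t ht]
    exact sm_slice (sm_T _ hf') ht
  · exact (sm_Hs hf' j k).congr fun q hq => hess_slice hf' hq.1 q.2 j k
  · rw [e t ht, hess_slice (sm_T _ hf') ht]
    exact (time_Hs hf' ht z j k).congr (fun s hs => hess_slice hf' hs z j k)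
      (hess_slice hf' ht z j k)

end Pool.Agent.P.MP_2cea5e_gt.IV
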