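import Pool.Agent.P.MP_2cea5e_gt.IV.St
import Pool.Agent.P.MP_2cea5e_gt.Hess
import Pool.Agent.P.MP_2cea5e_gt.Vol

/-!
Chapter IV: the complex Hessian of an invariant function.
-/

open scoped ContDiff ComplexOrder Matrix ComplexConjugate
open MeasureTheory Set

noncomputable section

namespace Pool.Agent.P.MP_2cea5e_gt.IV

open Pool.Agent.P.MP_2cea5e_gt.I

namespace HT

theorem fd_dz {G : C2 → ℂ} (hG : ContDiff ℝ ∞ G) (j : Fin 2) (z v : C2) :
    fderiv ℝ (dz j G) z v = (fderiv ℝ (fderiv ℝ G) z v (Pi.single j 1) -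
      Complex.I * fderiv ℝ (fderiv ℝ G) z v (Pi.single j Complex.I)) / 2 := by
  have h1 : ContDiff ℝ ∞ (fderiv ℝ G) := ContDiff.fderiv_right hG (m := ∞) (by simp)
  have h2 := (ContDiff.differentiable h1 (by simp) z).hasFDerivAt
  have h3 := (((h2.clm_apply (hasFDerivAt_const (Pi.single j 1 : C2) z)).sub
    ((h2.clm_apply (hasFDerivAt_const (Pi.single j Complex.I : C2) z)).const_mul
      Complex.I)).mul_const (1 / 2 : ℂ)).fderiv
  have h4 : dz j G = fun w => ((fun y => fderiv ℝ G y (Pi.single j 1)) -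
      fun y => Complex.I * fderiv ℝ G y (Pi.single j Complex.I)) w * (1 / 2 : ℂ) := by
    funext w
    simp only [dz, Pi.sub_apply]
    ring
  rw [h4, h3]
  simp
  ring

theorem dz_comm {G : C2 → ℂ} (hG : ContDiff ℝ ∞ G) (j l : Fin 2) (z : C2) :
    dz l (dz j G) z = dz j (dz l G) z := by
  have hs : IsSymmSndFDerivAt ℝ G z :=
    hG.contDiffAt.isSymmSndFDerivAt (by
      simp only [minSmoothness_of_isRCLikeNormedField]
      exact WithTop.coe_le_coe.2 (le_top : ((2 : ℕ) : ℕ∞) ≤ ⊤))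
  rw [dz, dz, fd_dz hG, fd_dz hG, fd_dz hG, fd_dz hG, hs.eq (Pi.single l 1) (Pi.single j 1),
    hs.eq (Pi.single l 1) (Pi.single j Complex.I), hs.eq (Pi.single l Complex.I) (Pi.single j 1),
    hs.eq (Pi.single l Complex.I) (Pi.single j Complex.I)]
  ring

theorem sm_ez : ContDiff ℝ ∞ ez := by
  refine contDiff_pi.2 fun i => ?_
  fin_cases i
  · exact Complex.ofRealCLM.contDiff.comp (contDiff_fst.div_const 2).exp
  · exact Complex.ofRealCLM.contDiff.comp (contDiff_snd.div_const 2).exp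

theorem exp_log {a : ℂ} (ha : a ≠ 0) : Real.exp (Real.log (‖a‖ ^ 2) / 2) = ‖a‖ := by
  rw [Real.log_pow, Nat.cast_ofNat, mul_div_cancel_left₀ _ two_ne_zero,
    Real.exp_log (norm_pos_iff.2 ha)]

/-- The identity chart. -/
def κ₀ : Ch := ⟨1, 0, 0, 1, by norm_num⟩

theorem n1_eq : κ₀.n1 = e1 := by simp [κ₀, Ch.n1, Ch.dt, e1]
theorem n2_eq : κ₀.n2 = e2 := by simp [κ₀, Ch.n2, Ch.dt, e2]
theorem pt_eq (p : X) : κ₀.pt p = (p.1, Real.exp (p.2.1 / 2), Real.exp (p.2.2 / 2)) := by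
  simp [κ₀, Ch.pt, Ch.z1, Ch.z2, Li]
theorem zp_eq (p : X) : κ₀.zp p = ez p.2 := by
  simp only [Ch.zp, pt_eq, ez]
theorem lift_eq (F : ℝ × C2 → ℝ) : κ₀.lift F = lg F := by
  funext p
  simp only [Ch.lift, lg, zp_eq]

theorem m1_hess {f : C2 → ℝ} (hf : ContDiff ℝ ∞ f) (hi : Inv f) : M1 (hess f) where
  smooth j k := (vol_ok.1 (fun q => f q.2) (hf.comp contDiff_snd) j k).comp
    ((contDiff_const (c := (0 : ℝ))).prodMk contDiff_id)
  herm z := by
    ext j k
    rw [Matrix.conjTranspose_apply, Hess.hess_eq hf, Hess.hess_eq hf,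
      Hess.d_comm (Hess.EE k) (Hess.EE j) hf, Hess.d_comm (Hess.JJ k) (Hess.JJ j) hf,
      Hess.d_comm (Hess.EE k) (Hess.JJ j) hf, Hess.d_comm (Hess.JJ k) (Hess.EE j) hf]
    simp only [Complex.star_def, map_div₀, map_add, map_mul, map_sub, Complex.conj_ofReal,
      Complex.conj_I, map_ofNat]
    ring
  closed z j k l := by
    have h1 : ContDiff ℝ ∞ fun w => (f w : ℂ) := Complex.ofRealCLM.contDiff.comp hf
    have h2 : ContDiff ℝ ∞ (dzb k fun w => (f w : ℂ)) :=
      (Vol.sm_dzb (h1.comp contDiff_snd) k).comp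
        ((contDiff_const (c := (0 : ℝ))).prodMk contDiff_id)
    exact dz_comm h2 j l z
  inv θ z hθ j k := by
    rw [Vol.hess_rot hf hi hθ z j k, Complex.star_def]
    ring

end HT

open HT in
theorem ht_ok : StHT := by
  intro f hf hi
  have hM := m1_hess hf hi
  refine ⟨hM, hf.comp (sm_ez.comp contDiff_snd), fun z hz => ?_⟩
  have hn : ∀ k, (‖z k‖ : ℂ) ≠ 0 := fun k => by exact_mod_cast (norm_pos_iff.2 (hz k)).ne'
  have hx : ∀ k, ez (lz z) k = (‖z k‖ : ℂ) := by
    intro k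
    fin_cases k
    · simp only [ez, lz, exp_log (hz 0)]; rfl
    · simp only [ez, lz, exp_log (hz 1)]; rfl
  have hθ : ∀ k, ‖(fun k => z k / (‖z k‖ : ℂ)) k‖ = 1 := fun k => by
    simp [(hz k)]
  have hzz : (fun k => z k / (‖z k‖ : ℂ)) * ez (lz z) = z := by
    funext k
    rw [Pi.mul_apply, hx, div_mul_cancel₀ _ (hn k)]
  have key : ∀ j k, z j * hess f z j k * star (z k) =
      ‖z j‖ * ‖z k‖ * hess f (ez (lz z)) j k := by
    intro j k
    have := hM.inv _ (ez (lz z)) hθ j k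
    rw [hzz] at this
    rw [← this]
    simp only [Complex.star_def, map_div₀, Complex.conj_ofReal]
    have := hn j
    have := hn k
    field_simp
  have hH : hess f (ez (lz z)) = _ :=
    zp_eq (0, lz z) ▸ hess_ok κ₀ (fun q => f q.2) (hf.comp contDiff_snd) (fun _ => hi) (0, lz z)
  rw [n1_eq, n2_eq, lift_eq, pt_eq] at hH
  simp only [lz, exp_log (hz 0), exp_log (hz 1)] at hH
  have h0 := hn 0
  have h1 := hn 1
  simp only [key, lz, hH, h11, h12, h22, Matrix.of_apply, Matrix.cons_val', Matrix.cons_val_zero,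
    Matrix.cons_val_one, Matrix.cons_val_fin_one]
  push_cast
  refine ⟨?_, ?_, ?_, ?_⟩ <;> field_simp

end Pool.Agent.P.MP_2cea5e_gt.IV
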